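import Pool.Agent.helper57.PP.Spec

/-!
# Row pp:ISO
-/

set_option autoImplicit false

namespace Pool.Agent.helper57.PP

open Finset

theorem ISO_one {W : Type} [DecidableEq W] {G : Finset (Finset W)} {σ : W → W}
    {m : ℕ} {p : ℕ → W} (hg : Geo G σ m p) (i j l : ℕ) (q : ℕ → W) (hij : i ≤ j)
    (hji : j ≤ i + m) (h0 : q 0 = p i) (hl : q l = p j)
    (hq : ∀ k < l, {q k, q (k + 1)} ∈ edges G) : j ≤ i + l := by
  have h := hg.min (fun k => if k ≤ l then q k else p (j + (k - l))) (l + (i + m - j)) ?_ ?_
  · omega
  · intro k hk
    by_cases h1 : k + 1 ≤ l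
    · have h2 : k ≤ l := by omega
      simp only [h1, h2, if_true]
      exact hq k (by omega)
    · by_cases h2 : k ≤ l
      · have h3 : k = l := by omega
        subst h3
        simp only [le_refl, if_true, h1, if_false]
        rw [hl]
        have e : j + (k + 1 - k) = j + 1 := by omega
        rw [e]
        exact hg.edge j
      · simp only [h1, h2, if_false]
        have e : j + (k + 1 - l) = j + (k - l) + 1 := by omega
        rw [e]
        exact hg.edge _
  · have e0 : (if 0 ≤ l then q 0 else p (j + (0 - l))) = p i := by simp [h0]
    show (if l + (i + m - j) ≤ l then q (l + (i + m - j)) else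
      p (j + (l + (i + m - j) - l))) = σ (if 0 ≤ l then q 0 else p (j + (0 - l)))
    rw [e0, ← hg.per i]
    by_cases h1 : l + (i + m - j) ≤ l
    · rw [if_pos h1]
      have e1 : l + (i + m - j) = l := by omega
      rw [e1, hl]
      congr 1
      omega
    · rw [if_neg h1]
      congr 1
      omega

theorem ISO : ISO_stmt := by
  intro W _ G σ m p hd hg
  have h1 := fun i j l q => ISO_one hg i j l q
  have h2 : ∀ i, p (i + 2 * m) = p i := by
    intro i
    have e : i + 2 * m = i + m + m := by ring
    rw [e, hg.per, hg.per, hd.invol]
  have h3 : ∀ i j, i < j → j < 2 * m → p i ≠ p j := by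
    intro i j hij hj heq
    by_cases hc : j ≤ i + m
    · have := h1 i j 0 (fun _ => p i) hij.le hc rfl heq (fun k hk => absurd hk (Nat.not_lt_zero _))
      omega
    · have := h1 j (i + 2 * m) 0 (fun _ => p j) (by omega) (by omega) rfl
        (by rw [h2, heq]) (fun k hk => absurd hk (Nat.not_lt_zero _))
      omega
  refine ⟨h1, h2, ?_, ?_, ?_, ?_⟩
  · intro i hi j hj heq
    rcases lt_trichotomy i j with h | h | h
    · exact absurd heq (h3 i j h hj)
    · exact h
    · exact absurd heq.symm (h3 j i h hi)
  · intro i j hij hji he
    have h4 := h1 i j 1 (fun k => if k = 0 then p i else p j) hij hji (by simp) (by simp) (by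
      intro k hk
      have : k = 0 := by omega
      subst this
      simpa using he)
    have h5 : i ≠ j := by
      rintro rfl
      exact edges_ne he rfl
    omega
  · intro i j x hij hji he he'
    exact h1 i j 2 (fun k => if k = 0 then p i else if k = 1 then x else p j) hij hji (by simp)
      (by simp) (by
        intro k hk
        rcases (by omega : k = 0 ∨ k = 1) with h | h
        · subst h
          simpa using he
        · subst h
          simpa using edges_comm he')
  · intro i
    have hm : 0 < 2 * m := by
      have := hg.m3
      omega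
    refine ⟨i % (2 * m), Nat.mod_lt _ hm, ?_⟩
    have hp : Function.Periodic p (2 * m) := h2
    exact (hp.map_mod_nat i).symm

end Pool.Agent.helper57.PP
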