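import Pool.Agent.helper57.PP.Spec

/-!
# Row pp:LS
-/

set_option autoImplicit false

namespace Pool.Agent.helper57.PP

open Finset

theorem LS_ne {W : Type} [DecidableEq W] {a b c : W} (h : ({a, b, c} : Finset W).card = 3) :
    a ≠ b ∧ a ≠ c ∧ b ≠ c := by
  refine ⟨?_, ?_, ?_⟩
  · rintro rfl
    rw [Finset.insert_eq_of_mem (by simp)] at h
    have := Finset.card_le_two (a := a) (b := c)
    omega
  · rintro rfl
    rw [Finset.insert_eq_of_mem (by simp)] at h
    have := Finset.card_le_two (a := b) (b := a)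
    omega
  · rintro rfl
    rw [Finset.pair_eq_singleton] at h
    have := Finset.card_le_two (a := a) (b := b)
    omega

theorem LS_third {W : Type} [DecidableEq W] {a b : W} {t : Finset W} (h : t.card = 3)
    (hab : a ≠ b) (hs : ({a, b} : Finset W) ⊆ t) : ∃ c, t = {a, b, c} ∧ a ≠ c ∧ b ≠ c := by
  have h2 : ({a, b} : Finset W).card = 2 := Finset.card_pair hab
  have h1 : (t \ {a, b}).card = 1 := by
    rw [Finset.card_sdiff_of_subset hs, h, h2]
  obtain ⟨c, hc⟩ := Finset.card_eq_one.1 h1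
  have h3 : t = {a, b, c} := by
    rw [← Finset.union_sdiff_of_subset hs, hc]
    ext x
    simp only [mem_union, mem_insert, mem_singleton]
    tauto
  refine ⟨c, h3, ?_⟩
  rw [h3] at h
  have := LS_ne h
  exact ⟨this.2.1, this.2.2⟩

theorem LS_z1 : ∀ a b c : ZMod 2, a + b = c → b = a + c := by decide

theorem LS_z2 : ∀ a c : ZMod 2, a + (a + c) = c := by decide

theorem LS_two {V : Type} [Fintype V] [DecidableEq V] {F : Finset (Finset V)}
    {w : Finset V → ZMod 2} (h1 : LED_stmt) (hS : IsSurface F) (hw : Coc F w)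
    (e : Finset (V × ZMod 2)) (he : e ∈ edges (lift F w)) : (cof (lift F w) e).card = 2 := by
  obtain ⟨hE, hT, -, -, -⟩ := h1 V F w hS hw
  have hcard := (mem_edges.1 he).1
  obtain ⟨x, y, hxy, rfl⟩ := Finset.card_eq_two.1 hcard
  obtain ⟨e1, e2, e3⟩ := (hE x y).1 he
  refine Eq.trans ?_ (hS.two _ e2)
  have key : ∀ t ∈ cof (lift F w) {x, y}, ∃ z, t = {x, y, z} ∧ x.1 ≠ z.1 ∧ y.1 ≠ z.1 ∧
      ({x.1, y.1, z.1} : Finset V) ∈ F ∧ z.2 = x.2 + w {x.1, z.1} := by
    intro t ht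
    obtain ⟨ht1, ht2⟩ := mem_cof.1 ht
    have hc3 : t.card = 3 := (mem_filter.1 ht1).2.1
    obtain ⟨z, rfl, -, -⟩ := LS_third hc3 hxy ht2
    obtain ⟨-, f2, f3, f4, -, f6⟩ := (hT x y z).1 ht1
    exact ⟨z, rfl, f2, f3, f4, LS_z1 _ _ _ f6⟩
  refine Finset.card_bij (fun t _ => t.image Prod.fst) ?_ ?_ ?_
  · intro t ht
    obtain ⟨z, rfl, f2, f3, f4, f5⟩ := key t ht
    rw [mem_cof]
    have : ({x, y, z} : Finset (V × ZMod 2)).image Prod.fst = {x.1, y.1, z.1} := by
      simp [Finset.image_insert]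
    rw [this]
    refine ⟨f4, ?_⟩
    intro u hu
    simp only [mem_insert, mem_singleton] at hu ⊢
    tauto
  · intro t ht t' ht' heq
    obtain ⟨z, rfl, f2, f3, f4, f5⟩ := key t ht
    obtain ⟨z', rfl, g2, g3, g4, g5⟩ := key t' ht'
    have i1 : ({x, y, z} : Finset (V × ZMod 2)).image Prod.fst = {x.1, y.1, z.1} := by
      simp [Finset.image_insert]
    have i2 : ({x, y, z'} : Finset (V × ZMod 2)).image Prod.fst = {x.1, y.1, z'.1} := by
      simp [Finset.image_insert]
    simp only [i1, i2] at heq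
    have hz : z.1 ∈ ({x.1, y.1, z'.1} : Finset V) := by
      rw [← heq]; simp
    simp only [mem_insert, mem_singleton] at hz
    have hz1 : z.1 = z'.1 := by
      rcases hz with h | h | h
      · exact absurd h.symm f2
      · exact absurd h.symm f3
      · exact h
    have hz2 : z.2 = z'.2 := by rw [f5, g5, hz1]
    have : z = z' := Prod.ext hz1 hz2
    rw [this]
  · intro τ hτ
    obtain ⟨hτ1, hτ2⟩ := mem_cof.1 hτ
    obtain ⟨c, rfl, g1, g2⟩ := LS_third (hS.card3 τ hτ1) e1 hτ2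
    refine ⟨{x, y, (c, x.2 + w {x.1, c})}, ?_, ?_⟩
    · rw [mem_cof]
      refine ⟨(hT x y (c, x.2 + w {x.1, c})).2 ⟨e1, g1, g2, hτ1, e3, LS_z2 _ _⟩, ?_⟩
      intro u hu
      simp only [mem_insert, mem_singleton] at hu ⊢
      tauto
    · simp [Finset.image_insert]

theorem LS (h1 : LED_stmt) : LS_stmt := by
  intro V _ _ F w hS hw
  refine ⟨fun t ht => (mem_filter.1 ht).2.1, fun e he => LS_two h1 hS hw e he, ?_⟩
  intro v a b ha hb
  obtain ⟨hE, hT, -, -, -⟩ := h1 V F w hS hw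
  obtain ⟨a1, a2, a3⟩ := (hE v a).1 ha
  obtain ⟨b1, b2, b3⟩ := (hE v b).1 hb
  have hchain := hS.link v.1 a.1 b.1 a2 b2
  have key : ∀ c : V, Relation.ReflTransGen (fun x y : V => ({v.1, x, y} : Finset V) ∈ F) a.1 c →
      Relation.ReflTransGen (fun x y : V × ZMod 2 => ({v, x, y} : Finset (V × ZMod 2)) ∈ lift F w)
        a (c, v.2 + w {v.1, c}) := by
    intro c hc
    induction hc with
    | refl =>
      have : (a.1, v.2 + w {v.1, a.1}) = a := Prod.ext rfl (LS_z1 _ _ _ a3).symm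
      rw [this]
    | @tail c d _ hcd ih =>
      refine ih.tail ?_
      have hne := LS_ne (hS.card3 _ hcd)
      exact (hT v (c, v.2 + w {v.1, c}) (d, v.2 + w {v.1, d})).2
        ⟨hne.1, hne.2.1, hne.2.2, hcd, LS_z2 _ _, LS_z2 _ _⟩
  have := key b.1 hchain
  have hb' : (b.1, v.2 + w {v.1, b.1}) = b := Prod.ext rfl (LS_z1 _ _ _ b3).symm
  rw [hb'] at this
  exact this

end Pool.Agent.helper57.PP
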